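import Mathlib
import Pool.Agent.Results.MP_f5a5f7_nt.FewExceptions
import Pool.Agent.W125.CV.HT
import Pool.Agent.W223.CV.Asm

/-!
# Integral points on C-pairs of general type on the line over number fields

`K` is a number field of degree `d`, `S` a finite set of primes of `K` and
`Δ = (1 - 1 / m_0) (0) + (1 - 1 / m_1) (1) + (1 - 1 / m_2) (∞)` on the projective line, with
`m_i ∈ {1, 2, …} ∪ {∞}` and `σ = 1 / m_0 + 1 / m_1 + 1 / m_2 < 1` (this is the condition that the
C-pair is of general type). Campana's conjecture says that the `S`-integral points of this C-pair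
are finite in number. We show that there are `O(B ^ (d min (4 σ / 7, 20 / 37) + ε))` of them of
height at most `B`.
-/

set_option autoImplicit false

namespace Pool.Agent.Results.MP_464c42_nt.OrbifoldLines

open NumberField IsDedekindDomain

/-- the absolute logarithmic Weil height `h(x)` -/
noncomputable def height {K : Type} [Field K] [NumberField K] (x : K) : ℝ :=
  (1 / (Module.finrank ℚ K : ℝ)) *
    ((∑ w : InfinitePlace K, (w.mult : ℝ) * Real.log (max 1 (w x))) +
      ∑ᶠ v : HeightOneSpectrum (RingOfIntegers K), Real.log (max 1 (FinitePlace.mk v x)))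

/-- the real number `1 / m`, with `1 / ∞ = 0` -/
noncomputable def recip (m : ℕ∞) : ℝ := ((m.toNat : ℕ) : ℝ)⁻¹

/-- `x ≠ 0, 1` is an `S`-integral point of the C-pair with the orders `m_0, m_1, m_2` at
`0, 1, ∞`: for every prime `v` outside `S` each of the numbers `z = x, x - 1, x⁻¹` which has a
positive valuation at `v` has valuation at least `m_0`, `m_1`, `m_2` respectively (and no positive
valuation if this order is `∞`). -/
def IsIntegral {K : Type} [Field K] [NumberField K] (S : Finset (HeightOneSpectrum (𝓞 K)))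
    (m : Fin 3 → ℕ∞) (x : K) : Prop :=
  x ≠ 0 ∧ x ≠ 1 ∧ ∀ v : HeightOneSpectrum (𝓞 K), v ∉ S → ∀ i : Fin 3,
    v.valuation K (![x, x - 1, x⁻¹] i) < 1 →
      ∃ n : ℕ, m i ≤ n ∧ v.valuation K (![x, x - 1, x⁻¹] i) = WithZero.exp (-(n : ℤ))

/-- the `S`-integral points of the C-pair of height `H(x) = exp h(x)` at most `B` -/
def points (K : Type) [Field K] [NumberField K] (S : Finset (HeightOneSpectrum (𝓞 K)))
    (m : Fin 3 → ℕ∞) (B : ℝ) : Set K :=
  {x : K | IsIntegral S m x ∧ Real.exp (height x) ≤ B}

section aux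

variable {K : Type} [Field K] [NumberField K]

open Pool.Agent.W125.CV (fv fv_apply fv_eq height_sum max_support_finite)
open Pool.Agent.W223.CV (lin)
open Pool.Agent.W223.VD (cnt)

lemma height_eq (x : K) :
    Real.log (Height.mulHeight₁ x) = Module.finrank ℚ K * height x := by
  classical
  have hd : (Module.finrank ℚ K : ℝ) ≠ 0 := by exact_mod_cast Module.finrank_pos.ne'
  set T := (max_support_finite x).toFinset with hT
  have hT1 : ∀ v, max (fv v x) 1 ≠ 1 → v ∈ T := fun v hv => (Set.Finite.mem_toFinset _).2 hv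
  rw [height_sum x T hT1]
  unfold height
  rw [← mul_assoc, mul_one_div, div_self hd, one_mul,
    finsum_eq_sum_of_support_subset (s := T)]
  · congr 1
    · refine Finset.sum_congr rfl fun w _ => ?_
      rw [max_comm]
    · refine Finset.sum_congr rfl fun v _ => ?_
      rw [max_comm, fv_apply]
  · intro v hv
    rw [Function.mem_support] at hv
    refine hT1 v fun h => hv ?_
    rw [max_comm, ← fv_apply, h, Real.log_one]

lemma fv_lt_one (v : HeightOneSpectrum (𝓞 K)) (x : K) :
    FinitePlace.mk v x < 1 ↔ v.valuation K x < 1 := by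
  rw [← fv_apply, fv_eq]
  have hmono : StrictMono (WithZeroMulInt.toNNReal (HeightOneSpectrum.absNorm_ne_zero v)) :=
    WithZeroMulInt.toNNReal_strictMono (HeightOneSpectrum.one_lt_absNorm_nnreal v)
  have h1 : WithZeroMulInt.toNNReal (HeightOneSpectrum.absNorm_ne_zero v) 1 = 1 := map_one _
  rw [← hmono.lt_iff_lt (a := v.valuation K x) (b := 1), h1]
  exact_mod_cast Iff.rfl

/-- the three points `0, 1, ∞` -/
def pts : Fin 3 → ℤ × ℤ := ![(0, 1), (1, 1), (1, 0)]

lemma near_iff (v : HeightOneSpectrum (𝓞 K)) (x : K) (hx : x ≠ 0) (i : Fin 3) :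
    (v.valuation K (lin (pts i) x) < max (v.valuation K x) 1 ↔
      v.valuation K (![x, x - 1, x⁻¹] i) < 1) ∧
    (v.valuation K (![x, x - 1, x⁻¹] i) < 1 →
      v.valuation K (lin (pts i) x) =
        max (v.valuation K x) 1 * v.valuation K (![x, x - 1, x⁻¹] i)) := by
  have hv0 : v.valuation K x ≠ 0 := (Valuation.ne_zero_iff _).mpr hx
  fin_cases i
  · have e1 : lin (pts 0) x = -x := by simp [lin, pts]
    show (v.valuation K (lin (pts 0) x) < _ ↔ v.valuation K x < 1) ∧
      (v.valuation K x < 1 → v.valuation K (lin (pts 0) x) = _ * v.valuation K x)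
    rw [e1, Valuation.map_neg]
    refine ⟨?_, fun h => ?_⟩
    · constructor
      · intro h
        rcases lt_max_iff.mp h with h1 | h1
        · exact absurd h1 (lt_irrefl _)
        · exact h1
      · exact fun h => lt_max_of_lt_right h
    · rw [max_eq_right h.le, one_mul]
  · have e1 : lin (pts 1) x = -(x - 1) := by simp [lin, pts]
    show (v.valuation K (lin (pts 1) x) < _ ↔ v.valuation K (x - 1) < 1) ∧
      (v.valuation K (x - 1) < 1 → v.valuation K (lin (pts 1) x) = _ * v.valuation K (x - 1))
    rw [e1, Valuation.map_neg]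
    refine ⟨?_, fun h => ?_⟩
    · constructor
      · intro h
        rcases le_or_gt (v.valuation K x) 1 with h1 | h1
        · rwa [max_eq_right h1] at h
        · rw [max_eq_left h1.le] at h
          have h2 : v.valuation K (x - 1) = v.valuation K x := by
            refine Valuation.map_sub_eq_of_lt_left (v.valuation K) ?_
            rw [map_one]
            exact h1
          rw [h2] at h
          exact absurd h (lt_irrefl _)
      · exact fun h => lt_max_of_lt_right h
    · have h1 : v.valuation K x ≤ 1 := by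
        have : x = (x - 1) + 1 := by ring
        rw [this]
        refine (Valuation.map_add _ _ _).trans (max_le h.le ?_)
        rw [map_one]
      rw [max_eq_right h1, one_mul]
  · have e1 : lin (pts 2) x = 1 := by simp [lin, pts]
    show (v.valuation K (lin (pts 2) x) < _ ↔ v.valuation K x⁻¹ < 1) ∧
      (v.valuation K x⁻¹ < 1 → v.valuation K (lin (pts 2) x) = _ * v.valuation K x⁻¹)
    have hinv : (v.valuation K x)⁻¹ < 1 ↔ 1 < v.valuation K x :=
      inv_lt_one₀ (bot_lt_iff_ne_bot.mpr hv0)
    rw [e1, map_one, map_inv₀, hinv]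
    refine ⟨?_, fun h => ?_⟩
    · constructor
      · intro h
        rcases lt_max_iff.mp h with h1 | h1
        · exact h1
        · exact absurd h1 (lt_irrefl _)
      · exact fun h => lt_max_of_lt_left h
    · rw [max_eq_left h.le, mul_inv_cancel₀ hv0]

/-- `v` contains one of the numbers of `S` -/
def Over (S : Finset ℕ) (v : HeightOneSpectrum (𝓞 K)) : Prop := ∃ p ∈ S, (p : 𝓞 K) ∈ v.asIdeal

lemma over_finite (S : Finset ℕ) (hS : ∀ p ∈ S, p ≠ 0) : {v | Over (K := K) S v}.Finite := by
  have : {v | Over (K := K) S v} = ⋃ p ∈ S, {v | (p : 𝓞 K) ∈ v.asIdeal} := by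
    ext v; simp [Over]
  rw [this]
  refine S.finite_toSet.biUnion fun p hp => ?_
  have hp0 : ((p : 𝓞 K) : K) ≠ 0 := by
    have := hS p hp
    simpa using this
  refine (Pool.Agent.W598.VD.TR.finite_support (K := K) 1 ((p : 𝓞 K) : K) hp0).subset ?_
  intro v hv
  show v.valuation K ((p : 𝓞 K) : K) < max (v.valuation K 1) 1
  rw [map_one, max_self]
  exact (v.valuation_lt_one_iff_mem _).mpr hv

open Pool.Agent.W223.CV (cc ct ct_pos ct_neg ct_support ct_nonneg cnt_one Near near_finite) in
lemma cond_le (S : Finset ℕ) (hS : ∀ p ∈ S, p ≠ 0) (x : K) (hx0 : x ≠ 0) (hx1 : x ≠ 1)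
    (i : Fin 3) :
    Module.finrank ℚ K * Pool.Agent.Results.MP_f5a5f7_nt.FewExceptions.cond (![x, x - 1, x⁻¹] i) ≤
      cc (L := K) ∅ (Over S) + cnt S (fun _ : Fin 1 => pts i) x := by
  have hd : (Module.finrank ℚ K : ℝ) ≠ 0 := by exact_mod_cast Module.finrank_pos.ne'
  have hlin : lin (pts i) x ≠ 0 := by
    fin_cases i
    · simpa [lin, pts] using hx0
    · simp only [lin, pts]
      intro h
      apply hx1
      simp at h
      linear_combination -h
    · simp [lin, pts]
  unfold Pool.Agent.Results.MP_f5a5f7_nt.FewExceptions.cond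
  rw [← mul_assoc, mul_one_div, div_self hd, one_mul, cnt_one]
  unfold cc
  rw [← finsum_add_distrib (ct_support ∅ (over_finite S hS))
    (ct_support S (near_finite (pts i) x hlin))]
  refine finsum_le_finsum' ?_ ?_ ?_
  · refine (near_finite (pts i) x hlin).subset fun v hv => ?_
    rw [Function.mem_support] at hv
    by_contra h
    apply hv
    rw [if_neg]
    rw [fv_lt_one]
    exact fun h1 => h ((near_iff v x hx0 i).1.mpr h1)
  · exact Set.Finite.subset ((ct_support ∅ (over_finite S hS)).union
      (ct_support S (near_finite (pts i) x hlin))) (Function.support_add _ _)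
  · intro v
    have h0 := ct_nonneg (L := K) ∅ (Over S) v
    have h0' := ct_nonneg (L := K) S (fun v => Near (pts i) x v) v
    show (if FinitePlace.mk v (![x, x - 1, x⁻¹] i) < 1 then _ else _) ≤
      ct ∅ (Over S) v + ct S (fun v => Near (pts i) x v) v
    by_cases h : FinitePlace.mk v (![x, x - 1, x⁻¹] i) < 1
    · rw [if_pos h]
      by_cases h1 : Over S v
      · rw [ct_pos (S := ∅) ⟨by simp, h1⟩]
        linarith
      · have h2 : Near (pts i) x v := (near_iff v x hx0 i).1.mpr ((fv_lt_one v _).mp h)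
        rw [ct_pos (S := S) (A := fun v => Near (pts i) x v)
          ⟨fun p hp hpv => h1 ⟨p, hp, hpv⟩, h2⟩]
        linarith
    · rw [if_neg h]
      linarith

open Pool.Agent.W223.CV (cc) in
lemma cond_le_height (S : Finset (HeightOneSpectrum (𝓞 K))) (m : Fin 3 → ℕ∞)
    (hm : ∀ i, 1 ≤ m i) (x : K) (hx : IsIntegral S m x) (i : Fin 3) :
    Module.finrank ℚ K * Pool.Agent.Results.MP_f5a5f7_nt.FewExceptions.cond (![x, x - 1, x⁻¹] i) ≤
      cc (L := K) ∅ (Over (S.image fun v => Ideal.absNorm v.asIdeal)) +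
        recip (m i) * (Module.finrank ℚ K * (height x + Real.log 2)) := by
  classical
  obtain ⟨hx0, hx1, hxv⟩ := hx
  set S' := S.image fun v => Ideal.absNorm v.asIdeal with hS'
  have hS0 : ∀ p ∈ S', p ≠ 0 := by
    intro p hp
    obtain ⟨v, -, rfl⟩ := Finset.mem_image.mp hp
    rw [Ne, Ideal.absNorm_eq_zero_iff]
    exact v.ne_bot
  have hout : ∀ v : HeightOneSpectrum (𝓞 K), (∀ p ∈ S', (p : 𝓞 K) ∉ v.asIdeal) → v ∉ S := by
    intro v hv hvS
    exact hv _ (Finset.mem_image_of_mem _ hvS) (Ideal.absNorm_mem _)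
  have h1 := cond_le S' hS0 x hx0 hx1 i
  have hlin : lin (pts i) x ≠ 0 := by
    fin_cases i
    · simpa [lin, pts] using hx0
    · simp only [lin, pts]
      intro h
      apply hx1
      simp at h
      linear_combination -h
    · simp [lin, pts]
  refine h1.trans (add_le_add_right ?_ _)
  rcases eq_or_ne (m i) ⊤ with htop | htop
  · have h2 : cnt S' (fun _ : Fin 1 => pts i) x = 0 := by
      rw [Pool.Agent.W223.CV.cnt_one]
      unfold cc
      have : Pool.Agent.W223.CV.ct (L := K) S' (fun v => Pool.Agent.W223.CV.Near (pts i) x v) =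
          fun _ => 0 := by
        funext v
        refine Pool.Agent.W223.CV.ct_neg ?_
        rintro ⟨h3, h4⟩
        obtain ⟨n, hn, -⟩ := hxv v (hout v h3) i ((near_iff v x hx0 i).1.mp h4)
        rw [htop] at hn
        exact absurd hn (by simp)
      rw [this, finsum_zero]
    rw [h2]
    have h3 : recip (m i) = 0 := by rw [htop]; simp [recip]
    rw [h3, zero_mul]
  · obtain ⟨e, he⟩ := ENat.ne_top_iff_exists.mp htop
    have he1 : 1 ≤ e := by
      have := hm i
      rw [← he] at this
      exact_mod_cast this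
    have h2 := Pool.Agent.W125.CV.t K S' (pts i) x e hlin he1 (by
      intro v hv hn
      have h4 := (near_iff v x hx0 i).1.mp hn
      obtain ⟨n, hn1, hn2⟩ := hxv v (hout v hv) i h4
      rw [(near_iff v x hx0 i).2 h4, hn2]
      refine mul_le_mul_right ?_ _
      rw [WithZero.exp_le_exp]
      have : e ≤ n := by
        rw [← he] at hn1
        exact_mod_cast hn1
      omega)
    have h3 : recip (m i) = (e : ℝ)⁻¹ := by rw [← he]; simp [recip]
    have hlog : Real.log (|((pts i).1 : ℝ)| + |((pts i).2 : ℝ)|) ≤ Real.log 2 := by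
      fin_cases i
      · simp [pts]
        exact Real.log_nonneg (by norm_num)
      · simp [pts]
        norm_num
      · simp [pts]
        exact Real.log_nonneg (by norm_num)
    rw [height_eq] at h2
    have hdn : (0 : ℝ) ≤ Module.finrank ℚ K := Nat.cast_nonneg _
    have he0 : (0 : ℝ) < e := by exact_mod_cast he1
    rw [h3, inv_mul_eq_div, le_div_iff₀ he0, mul_comm]
    refine h2.trans ?_
    rw [mul_add]
    exact add_le_add_right (mul_le_mul_of_nonneg_left hlog hdn) _

end aux

/-- **Integral points on C-pairs of general type on the line.** Let `K` be a number field of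
degree `d`, `S` a finite set of primes of `K` and `m_0, m_1, m_2 ∈ {1, 2, …} ∪ {∞}` with
`σ = 1 / m_0 + 1 / m_1 + 1 / m_2 < 1`. For every `ε > 0` the number of `S`-integral points of
height at most `B` of the C-pair `(ℙ¹, (1 - 1 / m_0) (0) + (1 - 1 / m_1) (1) + (1 - 1 / m_2) (∞))`
is `O(B ^ (d min (4 σ / 7, 20 / 37) + ε))`. -/
theorem result : ∀ (K : Type) [Field K] [NumberField K] (S : Finset (HeightOneSpectrum (𝓞 K)))
    (m : Fin 3 → ℕ∞), (∀ i, 1 ≤ m i) → ∑ i, recip (m i) < 1 → ∀ ε : ℝ, 0 < ε →
    ∃ C : ℝ, ∀ B : ℝ, 1 ≤ B → (points K S m B).Finite ∧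
      ((points K S m B).ncard : ℝ) ≤
        C * B ^ ((Module.finrank ℚ K : ℝ) * min (4 * (∑ i, recip (m i)) / 7) (20 / 37) + ε) := by
  classical
  intro K _ _ S m hm hσ ε hε
  set σ := ∑ i, recip (m i) with hσd
  set d : ℝ := (Module.finrank ℚ K : ℝ) with hdd
  have hd : 0 < d := by rw [hdd]; exact_mod_cast Module.finrank_pos
  have hr0 : ∀ i, 0 ≤ recip (m i) := fun i => inv_nonneg.mpr (Nat.cast_nonneg _)
  have hσ0 : 0 ≤ σ := Finset.sum_nonneg fun i _ => hr0 i
  set δ : ℝ := min (1 / 2) (ε / (2 * d)) with hδ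
  have hδ0 : 0 < δ := lt_min (by norm_num) (by positivity)
  have hδ1 : δ ≤ 1 / 2 := min_le_left _ _
  have hδ2 : δ * (2 * d) ≤ ε := by
    have := min_le_right (1 / 2 : ℝ) (ε / (2 * d))
    rw [← hδ] at this
    rwa [le_div_iff₀ (by positivity)] at this
  set τ := max σ δ with hτ
  have hτ0 : 0 < τ := lt_max_of_lt_right hδ0
  have hτ1 : τ < 1 := max_lt hσ (by linarith)
  set κ : ℝ := 1 / τ with hκ
  have hκ1 : 1 < κ := by rw [hκ, lt_div_iff₀ hτ0]; linarith
  have hκσ : κ * σ ≤ 1 := by
    rw [hκ, one_div, inv_mul_le_iff₀ hτ0, mul_one]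
    exact le_max_left _ _
  set M : ℝ := Pool.Agent.W223.CV.cc (L := K) ∅
    (Over (S.image fun v => Ideal.absNorm v.asIdeal)) with hM
  obtain ⟨C, hC⟩ := Pool.Agent.Results.MP_f5a5f7_nt.FewExceptions.result K κ
    (κ * (3 * M / d) + Real.log 2) (ε / 2) hκ1 (by linarith)
  refine ⟨max C 0, fun B hB => ?_⟩
  obtain ⟨h1, h2⟩ := hC B hB
  have hsub : points K S m B ⊆
      Pool.Agent.Results.MP_f5a5f7_nt.FewExceptions.exceptional K κ
        (κ * (3 * M / d) + Real.log 2) B := by
    rintro x ⟨hx, hxB⟩
    refine ⟨hx.1, hx.2.1, hxB, ?_⟩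
    have a0 := cond_le_height S m hm x hx 0
    have a1 := cond_le_height S m hm x hx 1
    have a2 := cond_le_height S m hm x hx 2
    rw [← hM, ← hdd] at a0 a1 a2
    simp only [Matrix.cons_val_zero, Matrix.cons_val_one, Matrix.cons_val] at a0 a1 a2
    have hsum : σ = recip (m 0) + recip (m 1) + recip (m 2) := by
      rw [hσd, Fin.sum_univ_three]
    have a3 : d * (Pool.Agent.Results.MP_f5a5f7_nt.FewExceptions.cond x +
        Pool.Agent.Results.MP_f5a5f7_nt.FewExceptions.cond x⁻¹ +
        Pool.Agent.Results.MP_f5a5f7_nt.FewExceptions.cond (x - 1)) ≤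
        3 * M + σ * (d * (height x + Real.log 2)) := by
      rw [hsum]
      linarith
    have hh0 : 0 ≤ height x := by
      have h5 := height_eq x
      have h6 := Real.log_nonneg (Height.one_le_mulHeight₁ x)
      rw [h5] at h6
      exact nonneg_of_mul_nonneg_right h6 hd
    have a4 : Pool.Agent.Results.MP_f5a5f7_nt.FewExceptions.cond x +
        Pool.Agent.Results.MP_f5a5f7_nt.FewExceptions.cond x⁻¹ +
        Pool.Agent.Results.MP_f5a5f7_nt.FewExceptions.cond (x - 1) ≤
        3 * M / d + σ * (height x + Real.log 2) := by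
      have h7 : 3 * M / d + σ * (height x + Real.log 2) =
          (3 * M + σ * (d * (height x + Real.log 2))) / d := by
        field_simp
      rw [h7, le_div_iff₀ hd, mul_comm]
      exact a3
    have hlog2 : 0 ≤ Real.log 2 := Real.log_nonneg (by norm_num)
    have a5 : κ * (σ * (height x + Real.log 2)) ≤ height x + Real.log 2 := by
      rw [← mul_assoc]
      have := mul_le_mul_of_nonneg_right hκσ (add_nonneg hh0 hlog2)
      rwa [one_mul] at this
    have a6 := mul_le_mul_of_nonneg_left a4 (zero_lt_one.trans hκ1).le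
    show κ * _ ≤ height x + _
    rw [mul_add κ (3 * M / d)] at a6
    linarith
  refine ⟨h1.subset hsub, ?_⟩
  have h3 : ((points K S m B).ncard : ℝ) ≤
      ((Pool.Agent.Results.MP_f5a5f7_nt.FewExceptions.exceptional K κ
        (κ * (3 * M / d) + Real.log 2) B).ncard : ℝ) := by
    exact_mod_cast Set.ncard_le_ncard hsub h1
  refine h3.trans (h2.trans ?_)
  refine (mul_le_mul_of_nonneg_right (le_max_left C 0) (by positivity)).trans ?_
  refine mul_le_mul_of_nonneg_left ?_ (le_max_right _ _)
  refine Real.rpow_le_rpow_of_exponent_le hB ?_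
  have h4 : 4 / (7 * κ) = 4 * τ / 7 := by
    rw [hκ]
    field_simp
  rw [h4]
  have h5 : τ ≤ σ + δ := max_le (by linarith) (by linarith)
  have h6 : min (4 * τ / 7) (20 / 37) ≤ min (4 * σ / 7) (20 / 37) + 4 * δ / 7 := by
    rcases min_choice (4 * σ / 7) (20 / 37 : ℝ) with h | h
    · rw [h]
      exact (min_le_left _ _).trans (by linarith)
    · rw [h]
      exact (min_le_right _ _).trans (by linarith)
  have h7 := mul_le_mul_of_nonneg_left h6 hd.le
  have h8 : d * (4 * δ / 7) ≤ ε / 2 := by
    have : d * (4 * δ / 7) = 2 / 7 * (δ * (2 * d)) := by ring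
    rw [this]
    linarith
  rw [mul_add] at h7
  linarith

end Pool.Agent.Results.MP_464c42_nt.OrbifoldLines
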